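import Pool.Agent.QD.N1Main
import Pool.Agent.HWR.SumNrm

/-!
# UPO/Line: the line of absolute convergence (paper 1.5)

`2 √q cos (y log q)` is not an integer for the norms `q` of infinitely many places outside every finite set: three
norms in `[x, x + c √x]` are impossible, so the sum of `1 / Nv` would converge.
-/

namespace Pool.Agent.UPO

open NumberField IsDedekindDomain Pool.Agent.HWR Pool.Agent.QD

/-! ### Three points -/

private theorem ln_deriv (y x : ℝ) (hx : 0 < x) :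
    HasDerivAt (fun x : ℝ => 2 * Real.sqrt x * Real.cos (y * Real.log x))
      ((Real.cos (y * Real.log x) - 2 * y * Real.sin (y * Real.log x)) / Real.sqrt x) x := by
  have h1 : HasDerivAt Real.sqrt (1 / (2 * Real.sqrt x)) x := Real.hasDerivAt_sqrt hx.ne'
  have h2 : HasDerivAt (fun x : ℝ => y * Real.log x) (y * x⁻¹) x :=
    (Real.hasDerivAt_log hx.ne').const_mul y
  have h3 := (h1.const_mul 2).mul h2.cos
  have hs : 0 < Real.sqrt x := Real.sqrt_pos.2 hx
  have hs2 : Real.sqrt x * Real.sqrt x = x := Real.mul_self_sqrt hx.le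
  refine h3.congr_deriv ?_
  have h4 : x⁻¹ = 1 / (Real.sqrt x * Real.sqrt x) := by rw [hs2, one_div]
  rw [h4]
  field_simp
  ring

private theorem ln_bound (y : ℝ) {x1 x2 : ℝ} (h1 : 1 ≤ x1) (h12 : x1 ≤ x2)
    (h2 : x2 - x1 ≤ 1 / (2 + 4 * |y|) * Real.sqrt x1) :
    |2 * Real.sqrt x2 * Real.cos (y * Real.log x2) -
      2 * Real.sqrt x1 * Real.cos (y * Real.log x1)| ≤ 1 / 2 := by
  have hy := abs_nonneg y
  have hs : 0 < Real.sqrt x1 := Real.sqrt_pos.2 (by linarith)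
  have h3 : ∀ x ∈ Set.Icc x1 x2, HasDerivWithinAt
      (fun x : ℝ => 2 * Real.sqrt x * Real.cos (y * Real.log x))
      ((Real.cos (y * Real.log x) - 2 * y * Real.sin (y * Real.log x)) / Real.sqrt x)
      (Set.Icc x1 x2) x := fun x hx => (ln_deriv y x (by linarith [hx.1])).hasDerivWithinAt
  have h4 : ∀ x ∈ Set.Icc x1 x2,
      ‖(Real.cos (y * Real.log x) - 2 * y * Real.sin (y * Real.log x)) / Real.sqrt x‖ ≤
        (1 + 2 * |y|) / Real.sqrt x1 := by
    intro x hx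
    have hsx : Real.sqrt x1 ≤ Real.sqrt x := Real.sqrt_le_sqrt hx.1
    rw [norm_div, Real.norm_eq_abs, Real.norm_eq_abs, abs_of_pos (hs.trans_le hsx)]
    have h5 : |Real.cos (y * Real.log x) - 2 * y * Real.sin (y * Real.log x)| ≤ 1 + 2 * |y| := by
      refine (abs_sub _ _).trans (add_le_add (Real.abs_cos_le_one _) ?_)
      rw [abs_mul, abs_mul, abs_two]
      have := Real.abs_sin_le_one (y * Real.log x)
      nlinarith
    exact div_le_div₀ (by linarith) h5 hs hsx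
  have h6 := (convex_Icc x1 x2).norm_image_sub_le_of_norm_hasDerivWithin_le h3 h4
    (Set.left_mem_Icc.2 h12) (Set.right_mem_Icc.2 h12)
  rw [Real.norm_eq_abs, Real.norm_eq_abs, abs_of_nonneg (sub_nonneg.2 h12)] at h6
  refine h6.trans ?_
  have h7 : (1 + 2 * |y|) / Real.sqrt x1 * (x2 - x1) ≤
      (1 + 2 * |y|) / Real.sqrt x1 * (1 / (2 + 4 * |y|) * Real.sqrt x1) :=
    mul_le_mul_of_nonneg_left h2 (by positivity)
  refine h7.trans (le_of_eq ?_)
  have h8 : (2 + 4 * |y|) = 2 * (1 + 2 * |y|) := by ring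
  rw [h8]
  have h9 : (1 + 2 * |y|) ≠ 0 := by positivity
  field_simp

private theorem ln_eq (y : ℝ) {x1 x2 : ℝ} (h1 : 1 ≤ x1) (h12 : x1 ≤ x2)
    (h2 : x2 - x1 ≤ 1 / (2 + 4 * |y|) * Real.sqrt x1) (m1 m2 : ℤ)
    (e1 : 2 * Real.sqrt x1 * Real.cos (y * Real.log x1) = m1)
    (e2 : 2 * Real.sqrt x2 * Real.cos (y * Real.log x2) = m2) : m1 = m2 := by
  have h3 := ln_bound y h1 h12 h2
  rw [e1, e2] at h3
  have h4 : |m2 - m1| < 1 := by
    have h5 : (|m2 - m1| : ℤ) < (1 : ℝ) := by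
      push_cast
      linarith
    exact_mod_cast h5
  rw [abs_lt] at h4
  omega

private theorem ln_rolle (y : ℝ) {x1 x2 : ℝ} (h1 : 1 ≤ x1) (h12 : x1 < x2)
    (h2 : x2 - x1 ≤ 1 / (2 + 4 * |y|) * Real.sqrt x1) (m1 m2 : ℤ)
    (e1 : 2 * Real.sqrt x1 * Real.cos (y * Real.log x1) = m1)
    (e2 : 2 * Real.sqrt x2 * Real.cos (y * Real.log x2) = m2) :
    ∃ x ∈ Set.Ioo x1 x2, Real.cos (y * Real.log x) = 2 * y * Real.sin (y * Real.log x) := by
  have hm := ln_eq y h1 h12.le h2 m1 m2 e1 e2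
  have hcont : ContinuousOn (fun x : ℝ => 2 * Real.sqrt x * Real.cos (y * Real.log x))
      (Set.Icc x1 x2) := fun x hx =>
    (ln_deriv y x (by linarith [hx.1])).continuousAt.continuousWithinAt
  obtain ⟨x, hx, hx'⟩ := exists_hasDerivAt_eq_zero h12 hcont
    (by
      show 2 * Real.sqrt x1 * Real.cos (y * Real.log x1) =
        2 * Real.sqrt x2 * Real.cos (y * Real.log x2)
      rw [e1, e2, hm])
    (fun x hx => ln_deriv y x (by linarith [hx.1]))
  refine ⟨x, hx, ?_⟩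
  have hs : 0 < Real.sqrt x := Real.sqrt_pos.2 (by linarith [hx.1])
  rw [div_eq_zero_iff] at hx'
  rcases hx' with h | h
  · linarith
  · exact absurd h hs.ne'

theorem three_false (y : ℝ) {x1 x2 x3 : ℝ} (h1 : 1 ≤ x1) (h12 : x1 < x2) (h23 : x2 < x3)
    (h : x3 - x1 ≤ 1 / (2 + 4 * |y|) * Real.sqrt x1) (m1 m2 m3 : ℤ)
    (e1 : 2 * Real.sqrt x1 * Real.cos (y * Real.log x1) = m1)
    (e2 : 2 * Real.sqrt x2 * Real.cos (y * Real.log x2) = m2)
    (e3 : 2 * Real.sqrt x3 * Real.cos (y * Real.log x3) = m3) : False := by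
  have hy := abs_nonneg y
  have hc : 0 < 1 / (2 + 4 * |y|) := by positivity
  have hs12 : Real.sqrt x1 ≤ Real.sqrt x2 := Real.sqrt_le_sqrt h12.le
  obtain ⟨a, ha, ha'⟩ := ln_rolle y h1 h12 (by linarith) m1 m2 e1 e2
  obtain ⟨b, hb, hb'⟩ := ln_rolle y (h1.trans h12.le) h23
    ((by linarith : x3 - x2 ≤ x3 - x1).trans (h.trans
      (mul_le_mul_of_nonneg_left hs12 hc.le))) m2 m3 e2 e3
  have hab : a < b := ha.2.trans hb.1
  have ha0 : 0 < a := by linarith [ha.1]
  have hb0 : 0 < b := ha0.trans hab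
  have hsin : Real.sin (y * Real.log b - y * Real.log a) = 0 := by
    rw [Real.sin_sub, ha', hb']
    ring
  have hlog : 0 < Real.log b - Real.log a := sub_pos.2 (Real.log_lt_log ha0 hab)
  have hlog2 : Real.log b - Real.log a ≤ (b - a) / a := by
    have h3 : Real.log (b / a) ≤ b / a - 1 := Real.log_le_sub_one_of_pos (div_pos hb0 ha0)
    rw [Real.log_div hb0.ne' ha0.ne'] at h3
    have h4 : b / a - 1 = (b - a) / a := by field_simp
    linarith
  have hba : (b - a) / a ≤ 1 / (2 + 4 * |y|) := by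
    rw [div_le_iff₀ ha0]
    have h3 : b - a ≤ 1 / (2 + 4 * |y|) * Real.sqrt x1 := by linarith [ha.1, hb.2]
    have h4 : Real.sqrt x1 ≤ a := by
      have h5 : Real.sqrt x1 ≤ x1 := by
        rw [Real.sqrt_le_left (by linarith)]
        nlinarith
      linarith [ha.1]
    exact h3.trans (mul_le_mul_of_nonneg_left h4 hc.le)
  have hsmall : |y * Real.log b - y * Real.log a| ≤ 1 / 4 := by
    rw [← mul_sub, abs_mul, abs_of_pos hlog]
    have h3 : |y| * (Real.log b - Real.log a) ≤ |y| * (1 / (2 + 4 * |y|)) :=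
      mul_le_mul_of_nonneg_left (hlog2.trans hba) hy
    refine h3.trans ?_
    rw [mul_one_div, div_le_iff₀ (by positivity)]
    linarith
  have hpi := Real.pi_gt_three
  have h5 : y * Real.log b - y * Real.log a = 0 := by
    rw [abs_le] at hsmall
    exact (Real.sin_eq_zero_iff_of_lt_of_lt (by linarith) (by linarith)).1 hsin
  rw [← mul_sub, mul_eq_zero] at h5
  rcases h5 with h5 | h5
  · rw [h5] at ha'
    simp at ha'
  · exact hlog.ne' h5

/-! ### The sum of `1 / Nv` diverges -/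

theorem not_summable_inv (K : Type) [Field K] [NumberField K] :
    ¬ Summable fun v : HeightOneSpectrum (𝓞 K) => (nrm v : ℝ)⁻¹ := by
  intro hsum
  obtain ⟨Z, hZd, -, hZ1, hZw, -⟩ := zeta_fe K
  set C : ℝ := Real.exp (∑' v : HeightOneSpectrum (𝓞 K), 2 * (nrm v : ℝ)⁻¹) with hC
  have h2 : ∀ v : HeightOneSpectrum (𝓞 K), (2 : ℝ) ≤ nrm v := by
    intro v
    have h3 := nrm_ne_zero v
    have h4 := nrm_ne_one v
    exact_mod_cast (show 2 ≤ nrm v by omega)
  have hsum2 : Summable fun v : HeightOneSpectrum (𝓞 K) => 2 * (nrm v : ℝ)⁻¹ := hsum.mul_left 2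
  have hbd : ∀ w : ℝ, 1 < w → ‖ZP K w‖ ≤ C := by
    intro w hw
    have hterm : ∀ v : HeightOneSpectrum (𝓞 K),
        ‖(1 - (nrm v : ℂ) ^ (-(w : ℂ)))⁻¹‖ ≤ Real.exp (2 * (nrm v : ℝ)⁻¹) := by
      intro v
      have hq := h2 v
      have hq0 : (0 : ℝ) < nrm v := by linarith
      have hn : ‖(nrm v : ℂ) ^ (-(w : ℂ))‖ ≤ (nrm v : ℝ)⁻¹ := by
        rw [Complex.norm_natCast_cpow_of_pos (by exact_mod_cast hq0)]
        rw [Complex.neg_re, Complex.ofReal_re, ← Real.rpow_neg_one]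
        exact Real.rpow_le_rpow_of_exponent_le (by linarith) (by linarith)
      have hinv : (nrm v : ℝ)⁻¹ ≤ 1 / 2 := by
        rw [inv_le_comm₀ hq0 (by norm_num)]
        linarith
      have hlow : 1 - (nrm v : ℝ)⁻¹ ≤ ‖1 - (nrm v : ℂ) ^ (-(w : ℂ))‖ := by
        have h5 := norm_sub_norm_le (1 : ℂ) ((nrm v : ℂ) ^ (-(w : ℂ)))
        rw [norm_one] at h5
        linarith
      rw [norm_inv]
      have h6 : (0 : ℝ) < 1 - (nrm v : ℝ)⁻¹ := by linarith
      refine (inv_anti₀ h6 hlow).trans ?_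
      refine le_trans ?_ (Real.add_one_le_exp _)
      rw [inv_le_iff_one_le_mul₀ h6]
      have h7 : 0 < (nrm v : ℝ)⁻¹ := inv_pos.2 hq0
      nlinarith
    have hfin : ∀ s : Finset (HeightOneSpectrum (𝓞 K)),
        ‖∏ v ∈ s, (1 - (nrm v : ℂ) ^ (-(w : ℂ)))⁻¹‖ ≤ C := by
      intro s
      rw [norm_prod]
      refine (Finset.prod_le_prod (fun v _ => norm_nonneg _) fun v _ => hterm v).trans ?_
      rw [← Real.exp_sum, hC]
      refine Real.exp_le_exp.2 (hsum2.sum_le_tsum s fun v _ => ?_)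
      positivity
    unfold ZP
    by_cases hm : Multipliable fun v : HeightOneSpectrum (𝓞 K) =>
        (1 - (nrm v : ℂ) ^ (-(w : ℂ)))⁻¹
    · exact le_of_tendsto hm.hasProd.norm (Filter.Eventually.of_forall fun s => by
        have h8 := hfin s
        rwa [norm_prod] at h8)
    · rw [tprod_eq_one_of_not_multipliable hm]
      have h8 := hfin ∅
      rwa [Finset.prod_empty] at h8
  -- `Z w` tends to `Z 1`, and to `0`
  have hlim1 : Filter.Tendsto (fun w : ℝ => Z w) (nhdsWithin 1 (Set.Ioi 1)) (nhds (Z 1)) := by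
    have h9 : ContinuousAt (fun w : ℝ => Z w) 1 := by
      have h10 : ContinuousAt Z ((1 : ℝ) : ℂ) := hZd.continuous.continuousAt
      exact h10.comp Complex.continuous_ofReal.continuousAt
    have h11 : Filter.Tendsto (fun w : ℝ => Z w) (nhds 1) (nhds (Z ((1 : ℝ) : ℂ))) := h9
    rw [Complex.ofReal_one] at h11
    exact h11.mono_left nhdsWithin_le_nhds
  have hlim0 : Filter.Tendsto (fun w : ℝ => Z w) (nhdsWithin 1 (Set.Ioi 1)) (nhds 0) := by
    refine squeeze_zero_norm' (a := fun w : ℝ => (w - 1) * C) ?_ ?_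
    · filter_upwards [self_mem_nhdsWithin] with w hw
      have hw1 : (1 : ℝ) < w := hw
      rw [hZw w (by rw [Complex.ofReal_re]; exact hw1), norm_mul]
      have h12 : ‖((w : ℂ) - 1)‖ = w - 1 := by
        rw [← Complex.ofReal_one, ← Complex.ofReal_sub, Complex.norm_real, Real.norm_eq_abs,
          abs_of_pos (by linarith)]
      rw [h12]
      exact mul_le_mul_of_nonneg_left (hbd w hw1) (by linarith)
    · have h13 : Filter.Tendsto (fun w : ℝ => (w - 1) * C) (nhds 1) (nhds ((1 - 1) * C)) :=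
        ((continuous_id.sub continuous_const).mul continuous_const).tendsto 1
      rw [sub_self, zero_mul] at h13
      exact h13.mono_left nhdsWithin_le_nhds
  exact hZ1 (tendsto_nhds_unique hlim1 hlim0)

/-! ### Places of given norm -/

/-- the norm of a place is a power of a prime -/
private theorem ln_pp {K : Type} [Field K] [NumberField K] (v : HeightOneSpectrum (𝓞 K)) :
    ∃ p f : ℕ, p.Prime ∧ nrm v = p ^ f := by
  have : v.asIdeal.IsMaximal := v.isMaximal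
  let _ : Field (𝓞 K ⧸ v.asIdeal) := Ideal.Quotient.field v.asIdeal
  have : Finite (𝓞 K ⧸ v.asIdeal) := Ideal.finiteQuotientOfFreeOfNeBot v.asIdeal v.ne_bot
  let _ : Fintype (𝓞 K ⧸ v.asIdeal) := Fintype.ofFinite _
  have hpp : IsPrimePow (nrm v) := by
    have h1 := Fintype.isPrimePow_card_of_field (α := 𝓞 K ⧸ v.asIdeal)
    have h2 : nrm v = Fintype.card (𝓞 K ⧸ v.asIdeal) := by
      unfold nrm
      rw [Ideal.absNorm_apply, Submodule.cardQuot_apply, Nat.card_eq_fintype_card]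
    rw [h2]
    exact h1
  rw [isPrimePow_nat_iff] at hpp
  obtain ⟨p, f, hp, -, hpf⟩ := hpp
  exact ⟨p, f, hp, hpf.symm⟩

theorem card_norm (K : Type) [Field K] [NumberField K] (q : ℕ)
    (s : Finset (HeightOneSpectrum (𝓞 K))) (hs : ∀ v ∈ s, nrm v = q) :
    s.card ≤ Module.finrank ℚ K := by
  classical
  rcases s.eq_empty_or_nonempty with rfl | ⟨v0, hv0⟩
  · simp
  obtain ⟨p, f, hp, hpf⟩ := ln_pp v0
  have hqf : q = p ^ f := by rw [← hs v0 hv0, hpf]
  have hmem : ∀ v ∈ s, ((p : ℕ) : 𝓞 K) ∈ v.asIdeal := by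
    intro v hv
    have h1 : ((nrm v : ℕ) : 𝓞 K) ∈ v.asIdeal := Ideal.absNorm_mem v.asIdeal
    rw [hs v hv, hqf, Nat.cast_pow] at h1
    exact v.isPrime.mem_of_pow_mem _ h1
  set P : Ideal ℤ := Ideal.span {(p : ℤ)} with hP
  have hpZ : Prime (p : ℤ) := Nat.prime_iff_prime_int.1 hp
  have hPp : P.IsPrime := (Ideal.span_singleton_prime hpZ.ne_zero).2 hpZ
  have hP0 : P ≠ ⊥ := by
    rw [hP, Ne, Ideal.span_singleton_eq_bot]
    exact hpZ.ne_zero
  have hPm : P.IsMaximal := hPp.isMaximal hP0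
  have hover : ∀ v ∈ s, v.asIdeal ∈ P.primesOver (𝓞 K) := by
    intro v hv
    refine ⟨v.isPrime, ⟨?_⟩⟩
    refine hPm.eq_of_le (Ideal.comap_ne_top _ v.isPrime.ne_top) ?_
    rw [hP, Ideal.span_le, Set.singleton_subset_iff]
    show algebraMap ℤ (𝓞 K) (p : ℤ) ∈ v.asIdeal
    rw [map_natCast]
    exact hmem v hv
  have hfin : Finite (P.primesOver (𝓞 K)) := by
    rw [← IsDedekindDomain.coe_primesOverFinset hP0 (𝓞 K)]
    exact Finset.finite_toSet _
  let _ : Fintype (P.primesOver (𝓞 K)) := Fintype.ofFinite _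
  have hsum := Ideal.sum_ramification_inertia_eq_finrank P (𝓞 K)
  rw [RingOfIntegers.rank] at hsum
  rw [← hsum]
  have h1 : s.card ≤ (Finset.univ : Finset (P.primesOver (𝓞 K))).card := by
    refine Finset.card_le_card_of_injOn
      (fun v => if h : v ∈ s then (⟨v.asIdeal, hover v h⟩ : P.primesOver (𝓞 K))
        else ⟨v0.asIdeal, hover v0 hv0⟩) (fun v _ => Finset.mem_univ _) ?_
    intro v hv w hw h
    simp only at h
    rw [dif_pos (Finset.mem_coe.1 hv), dif_pos (Finset.mem_coe.1 hw)] at h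
    exact HeightOneSpectrum.ext (congrArg Subtype.val h)
  refine h1.trans ?_
  rw [Finset.card_eq_sum_ones]
  refine Finset.sum_le_sum fun Q _ => ?_
  have hQ : Q.1.IsPrime := Q.2.1
  exact Nat.mul_pos (Q.1.ramificationIdx_pos ℤ) (Q.1.inertiaDeg_pos ℤ)

/-! ### Sums over fibres -/

private theorem sum_fib {α : Type} (f : α → ℝ) (g : α → ℕ) (F : ℕ → ℝ) (M : ℕ)
    (hf0 : ∀ a, 0 ≤ f a) (hF0 : ∀ n, 0 ≤ F n) (hF : Summable F) (hfF : ∀ a, f a ≤ F (g a))
    (hg : ∀ (n : ℕ) (s : Finset α), (∀ a ∈ s, g a = n) → s.card ≤ M) : Summable f := by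
  classical
  refine summable_of_sum_le (c := M * ∑' n, F n) hf0 fun s => ?_
  have h1 : ∑ a ∈ s, f a ≤ ∑ n ∈ s.image g, (M : ℝ) * F n := by
    rw [← Finset.sum_fiberwise_of_maps_to (g := g) (t := s.image g)
      (fun a ha => Finset.mem_image_of_mem g ha)]
    refine Finset.sum_le_sum fun n _ => ?_
    have h2 : ∑ a ∈ s.filter (fun a => g a = n), f a ≤
        ∑ a ∈ s.filter (fun a => g a = n), F n := by
      refine Finset.sum_le_sum fun a ha => ?_
      have h3 := hfF a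
      rwa [(Finset.mem_filter.1 ha).2] at h3
    refine h2.trans ?_
    rw [Finset.sum_const, nsmul_eq_mul]
    refine mul_le_mul_of_nonneg_right ?_ (hF0 n)
    exact_mod_cast hg n _ fun a ha => (Finset.mem_filter.1 ha).2
  refine h1.trans ?_
  rw [← Finset.mul_sum]
  exact mul_le_mul_of_nonneg_left (hF.sum_le_tsum _ fun n _ => hF0 n) (Nat.cast_nonneg _)

/-- three different norms in one fibre are impossible -/
private theorem ln_fibre {N : Set ℕ} {y : ℝ} (hN : ∀ q ∈ N, 1 ≤ q ∧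
    ∃ m : ℤ, 2 * Real.sqrt q * Real.cos (y * Real.log q) = m) (t : Finset ℕ)
    (ht : ∀ q ∈ t, q ∈ N) (n : ℕ)
    (hn : ∀ q ∈ t, ⌊4 * (2 + 4 * |y|) * Real.sqrt q⌋₊ = n) : t.card ≤ 2 := by
  by_contra hcon
  push Not at hcon
  have hy := abs_nonneg y
  obtain ⟨q1, q2, q3, h1, h2, h3, h12, h23⟩ : ∃ q1 q2 q3 : ℕ, q1 ∈ t ∧ q2 ∈ t ∧ q3 ∈ t ∧
      q1 < q2 ∧ q2 < q3 := by
    obtain ⟨a, b, c, ha, hb, hc, hab, hac, hbc⟩ := Finset.two_lt_card_iff.1 hcon
    rcases lt_or_gt_of_ne hab with h1 | h1 <;> rcases lt_or_gt_of_ne hac with h2 | h2 <;>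
      rcases lt_or_gt_of_ne hbc with h3 | h3
    · exact ⟨a, b, c, ha, hb, hc, h1, h3⟩
    · exact ⟨a, c, b, ha, hc, hb, h2, h3⟩
    · exact absurd (h1.trans h3) (not_lt.2 h2.le)
    · exact ⟨c, a, b, hc, ha, hb, h2, h1⟩
    · exact ⟨b, a, c, hb, ha, hc, h1, h2⟩
    · exact absurd (h1.trans h2) (not_lt.2 h3.le)
    · exact ⟨b, c, a, hb, hc, ha, h3, h2⟩
    · exact ⟨c, b, a, hc, hb, ha, h3, h1⟩
  obtain ⟨g1, m1, e1⟩ := hN q1 (ht q1 h1)
  obtain ⟨-, m2, e2⟩ := hN q2 (ht q2 h2)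
  obtain ⟨-, m3, e3⟩ := hN q3 (ht q3 h3)
  have hq1 : (1 : ℝ) ≤ q1 := by exact_mod_cast g1
  refine three_false y hq1 (by exact_mod_cast h12) (by exact_mod_cast h23) ?_ m1 m2 m3 e1 e2 e3
  set B : ℝ := 2 + 4 * |y| with hB
  have hB2 : 2 ≤ B := by linarith
  have hs1 : 1 ≤ Real.sqrt q1 := by
    rw [← Real.sqrt_one]
    exact Real.sqrt_le_sqrt hq1
  have hd : Real.sqrt q3 - Real.sqrt q1 ≤ 1 / (4 * B) := by
    have h4 := Nat.lt_floor_add_one (4 * B * Real.sqrt q3)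
    have h5 := Nat.floor_le (show 0 ≤ 4 * B * Real.sqrt q1 by positivity)
    rw [hn q3 h3] at h4
    rw [hn q1 h1] at h5
    rw [le_div_iff₀ (by positivity)]
    nlinarith
  have hs13 : Real.sqrt q1 ≤ Real.sqrt q3 :=
    Real.sqrt_le_sqrt (by exact_mod_cast (h12.trans h23).le)
  have e4 : (q3 : ℝ) - q1 = (Real.sqrt q3 - Real.sqrt q1) * (Real.sqrt q3 + Real.sqrt q1) := by
    have h6 := Real.mul_self_sqrt (show (0 : ℝ) ≤ q3 by positivity)
    have h7 := Real.mul_self_sqrt (show (0 : ℝ) ≤ q1 by positivity)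
    linear_combination -h6 + h7
  rw [e4]
  have h8 : Real.sqrt q3 + Real.sqrt q1 ≤ 4 * Real.sqrt q1 := by
    have h9 : 1 / (4 * B) ≤ 1 := by
      rw [div_le_one (by positivity)]
      linarith
    linarith
  calc (Real.sqrt q3 - Real.sqrt q1) * (Real.sqrt q3 + Real.sqrt q1)
      ≤ 1 / (4 * B) * (4 * Real.sqrt q1) :=
        mul_le_mul hd h8 (by positivity) (by positivity)
    _ = 1 / B * Real.sqrt q1 := by
        field_simp

theorem line_false (K : Type) [Field K] [NumberField K]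
    (S : Set (HeightOneSpectrum (𝓞 K))) (hS : S.Finite) (y : ℝ)
    (h : ∀ v : HeightOneSpectrum (𝓞 K), v ∉ S →
      ∃ m : ℤ, 2 * Real.sqrt (nrm v) * Real.cos (y * Real.log (nrm v)) = m) : False := by
  classical
  refine not_summable_inv K ?_
  have hy := abs_nonneg y
  set B : ℝ := 4 * (2 + 4 * |y|) with hB
  have hB8 : 8 ≤ B := by linarith
  set N : Set ℕ := {q | ∃ v : HeightOneSpectrum (𝓞 K), v ∉ S ∧ nrm v = q} with hNd
  have hN : ∀ q ∈ N, 1 ≤ q ∧
      ∃ m : ℤ, 2 * Real.sqrt q * Real.cos (y * Real.log q) = m := by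
    rintro q ⟨v, hv, rfl⟩
    exact ⟨Nat.one_le_iff_ne_zero.2 (nrm_ne_zero v), h v hv⟩
  rw [← summable_subtype_and_compl (s := S)]
  have : Finite S := hS
  refine ⟨Summable.of_finite, ?_⟩
  have hF : Summable fun n : ℕ => B ^ 2 * ((n : ℝ) ^ 2)⁻¹ :=
    (Real.summable_nat_pow_inv.2 one_lt_two).mul_left _
  have hq1 : ∀ v : HeightOneSpectrum (𝓞 K), (1 : ℝ) ≤ nrm v := fun v => by
    exact_mod_cast Nat.one_le_iff_ne_zero.2 (nrm_ne_zero v)
  refine sum_fib _ (fun v : (Sᶜ : Set (HeightOneSpectrum (𝓞 K))) =>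
    ⌊B * Real.sqrt (nrm v.1)⌋₊) _ (Module.finrank ℚ K * 2) (fun v => ?_) (fun n => ?_) hF
    (fun v => ?_) ?_
  · positivity
  · positivity
  · have h1 := hq1 v.1
    have h2 : 1 ≤ Real.sqrt (nrm v.1) := by
      rw [← Real.sqrt_one]
      exact Real.sqrt_le_sqrt h1
    have h3 : (1 : ℕ) ≤ ⌊B * Real.sqrt (nrm v.1)⌋₊ := by
      rw [Nat.one_le_floor_iff]
      nlinarith
    have h4 : (1 : ℝ) ≤ (⌊B * Real.sqrt (nrm v.1)⌋₊ : ℝ) := by exact_mod_cast h3
    have h5 := Nat.floor_le (show 0 ≤ B * Real.sqrt (nrm v.1) by positivity)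
    have h6 := Real.mul_self_sqrt (show (0 : ℝ) ≤ nrm v.1 by positivity)
    rw [← div_eq_mul_inv, inv_le_iff_one_le_mul₀ (by linarith), div_mul_eq_mul_div,
      le_div_iff₀ (by positivity), one_mul]
    calc (⌊B * Real.sqrt (nrm v.1)⌋₊ : ℝ) ^ 2 ≤ (B * Real.sqrt (nrm v.1)) ^ 2 :=
          pow_le_pow_left₀ (by linarith) h5 2
      _ = B ^ 2 * (nrm v.1 : ℝ) := by
          rw [mul_pow, sq (Real.sqrt _), h6]
  · intro n s hs
    have h7 := Finset.card_le_mul_card_image (f := fun v : (Sᶜ : Set (HeightOneSpectrum (𝓞 K))) =>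
      nrm v.1) s (Module.finrank ℚ K) (fun q _ => by
        have h8 : (s.filter fun v => nrm v.1 = q).card =
            ((s.filter fun v => nrm v.1 = q).map ⟨Subtype.val, Subtype.val_injective⟩).card := by
          rw [Finset.card_map]
        rw [h8]
        refine card_norm K q _ fun v hv => ?_
        obtain ⟨w, hw, rfl⟩ := Finset.mem_map.1 hv
        exact (Finset.mem_filter.1 hw).2)
    refine h7.trans (Nat.mul_le_mul_left _ ?_)
    refine ln_fibre hN _ (fun q hq => ?_) n fun q hq => ?_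
    · obtain ⟨v, hv, rfl⟩ := Finset.mem_image.1 hq
      exact ⟨v.1, v.2, rfl⟩
    · obtain ⟨v, hv, rfl⟩ := Finset.mem_image.1 hq
      exact hs v hv

end Pool.Agent.UPO
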